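import Pool.Agent.helper47.MSW.SpecA
import Pool.Agent.helper47.MSW.SpecC

set_option autoImplicit false

namespace Pool.Agent.MSW

open Equiv Finset Function MeasureTheory Pool.Agent.helper48.PP
open Pool.Agent.DSW (Pr Has GP wt)
open scoped ENNReal Classical

noncomputable section

theorem SPT (hHLA : HLA_stmt) (hHMN : HMN_stmt) : SPT_stmt := by
  obtain ⟨A1, A2, A3, A4, A5, A6, A7⟩ := hHLA
  obtain ⟨M1, M2, M3, M4, M5, M6, M7, M8⟩ := hHMN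
  have part1 : ∀ (X B Y : List Pat) (ω : Om) (w : Pt), HL (X ++ B ++ Y) ω 0 w ↔
      ∃ p q, mnU X ω p ∧ mxV Y ω w q ∧ HL B ω p q := by
    intro X B Y ω w
    constructor
    · intro h
      obtain ⟨m', h1, h2⟩ := (A2 (X ++ B) Y ω 0 w).1 h
      obtain ⟨m, h3, h4⟩ := (A2 X B ω 0 m').1 h1
      obtain ⟨p, hp, hpm⟩ := M1 X ω m h3
      obtain ⟨q, hq, hqm⟩ := M4 Y ω m' w h2
      exact ⟨p, q, hpm, hqm, A3 B ω m p m' q hp hq h4⟩
    · rintro ⟨p, q, hp, hq, hB⟩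
      exact (A2 (X ++ B) Y ω 0 w).2 ⟨q, (A2 X B ω 0 q).2 ⟨p, hp.1, hB⟩, hq.1⟩
  refine ⟨part1, ?_, ?_⟩
  · intro X B Y ω w p q hQ
    constructor
    · intro h
      obtain ⟨p', q', h1, h2, h3⟩ := (part1 X B Y ω w).1 h
      have h4 := A1 B ω p' q' h3
      obtain ⟨e1, e2⟩ := hQ.2.2.2 p' q' h1 h2 h4
      rw [e1, e2] at h3
      exact h3
    · intro h
      exact (part1 X B Y ω w).2 ⟨p, q, hQ.1, hQ.2.1, h⟩
  · intro X Y ω w p q p' q' h h'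
    obtain ⟨e1, e2⟩ := h.2.2.2 p' q' h'.1 h'.2.1 h'.2.2.1
    exact ⟨e1.symm, e2.symm⟩

end

end Pool.Agent.MSW
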